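import Mathlib
import Pool.Agent.H145R3.CV4

set_option autoImplicit false

namespace Pool.Agent.Results.MP_0f7a95_an.ConvexCyclicNotDense

/-- `x` is a convex-cyclic vector of the bounded operator `T` on the complex normed space `X`: the convex
hull (real convex combinations) of the orbit `x, T x, T² x, …` is dense in `X`. -/
def IsConvexCyclicVector {X : Type} [NormedAddCommGroup X] [NormedSpace ℂ X] (T : X →L[ℂ] X) (x : X) :
    Prop :=
  Dense (convexHull ℝ (Set.range fun n : ℕ => (T ^ n) x))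

/-- There is a bounded linear operator `T` on complex `ℓ²(ℕ)` which is convex-cyclic (it has a convex-cyclic
vector), while the set of all convex-cyclic vectors of `T` is not dense. -/
theorem result :
    ∃ T : lp (fun _ : ℕ => ℂ) 2 →L[ℂ] lp (fun _ : ℕ => ℂ) 2,
      (∃ x : lp (fun _ : ℕ => ℂ) 2, IsConvexCyclicVector T x) ∧
      ¬ Dense {x : lp (fun _ : ℕ => ℂ) 2 | IsConvexCyclicVector T x} := by
  let b : HilbertBasis ℕ ℂ (lp (fun _ : ℕ => ℂ) 2) :=
    HilbertBasis.ofRepr (LinearIsometryEquiv.refl ℂ (lp (fun _ : ℕ => ℂ) 2))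
  obtain ⟨S, hS⟩ := Pool.Agent.H145R3.CV.shift_exists b
  refine ⟨Pool.Agent.H145R3.CV.TT S, ⟨b 0, Pool.Agent.H145R3.CV.convex_cyclic hS⟩, ?_⟩
  intro hd
  obtain ⟨v, hv1, hv2⟩ := Metric.dense_iff.1 hd (b 1) (1 / 8) (by norm_num)
  rw [Metric.mem_ball, dist_eq_norm] at hv1
  exact Pool.Agent.H145R3.CV.not_cc hS v hv1.le hv2

end Pool.Agent.Results.MP_0f7a95_an.ConvexCyclicNotDense
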